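import Mathlib
import Pool.Agent.Run7.h879.HC.Bridge
import Pool.Agent.Y1.HZ.Betti
import Pool.Agent.R299.NCH.Main
import Pool.Agent.Y1.HZ.Main

/-!
# The noncommutative Hodge conjecture for `D(A) ⊠ 𝒟`, for abelian varieties `A` of CM type and all
# small admissible subcategories `𝒟`:
# a definite proportion of all CM types of every CM field of degree `2 r ^ k`

Let `K i` be finitely many CM fields of degrees `2 g i`, pairwise independent: for `i ≠ k` and all
complex embeddings `φ` of `K i` and `ψ` of `K k` some automorphism of `ℂ` is the identity on `φ (K
i)` and the complex conjugation on `ψ (K k)` (this is no condition for one field). Nothing is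
assumed about their Galois groups. There are `2 ^ (∑ g i)` families of CM types `Φ i` of the fields
`K i`. Let `A` be a product of copies of the complex abelian varieties of the CM types `(K i, Φ i)`,
given by the inclusion `per Φ t` of its rational homology `W` in its tangent space.

Let `𝒟` be an admissible subcategory of `D^perf(Z)`, for a smooth proper complex variety `Z`. Its
topological K-theory is a direct summand of the one of `Z`, with its Hodge structure. In the
statement the rational topological K-theory of `Z` (the rational cohomology, by the Chern character)
is `V : Coh v`, a space `ℚ ^ v` with the Hodge operator `V.z`, the multiplication by `p - q` on the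
classes of type `(p, q)`, and `𝒟` is given by the projector `P` of this space defined by the
projection functor onto `𝒟` (`IsProjector`). Its Hodge classes (`IsHodgeD`) are the elements of the
image of `P` that are killed by `V.z`, that is, whose complexification is in `HH_0(𝒟)`.

**The property `Q`** (`NCHodgeTimes`) of a family of types: for all such `A` and **any** admissible
subcategory `𝒟` of any `D^perf(Z)` which is unrelated to the fields `K i` (`Unrelated`)

* every Hodge class in `K^top_0(D(A) ⊠ 𝒟) ⊗ ℚ` is a sum of products `f ⊗ x`, where `f` is a
  combination of products of divisor classes on `A` and `x` is a Hodge class in `K^top_0(𝒟) ⊗ ℚ`;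
* **the noncommutative Hodge conjecture for `D(A) ⊠ 𝒟` is equivalent to the noncommutative Hodge
  conjecture for `𝒟`.** In particular it is true for `D(A) ⊠ 𝒟` if it is true for `𝒟`: for the K3
  categories of cubic fourfolds and Gushel-Mukai varieties, for all admissible subcategories of
  `D^perf(Z)` for the varieties `Z` of dimension at most three, for the categories of modules over
  finite dimensional algebras of finite global dimension, and so on.

Here `D(A) ⊠ 𝒟` is the admissible subcategory of `D^perf(A × Z)` generated by the products of
objects of `D(A)` and `𝒟`. Of the classes of objects, `alg` and `algA`, only two properties are used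
(`IsObjectClasses`): the product of a product of divisor classes on `A` and the class of an object
of `𝒟` is in the span of the classes of objects of `D(A) ⊠ 𝒟`; and the restriction to the fibre over
the origin of `A` maps objects of `D(A) ⊠ 𝒟` to objects of `𝒟`.

The condition `Unrelated` depends only on the Hodge structure of `𝒟`, not on `Z`: let `w ≠ 0` be a
vector in `K^top(𝒟) ⊗ ℂ` such that for each automorphism `σ` of `ℂ` the conjugate `σ w` is of pure
type, a sum of classes of types `(p, q)` with `p - q = d σ`; for all such `w` a function `n` on the
complex embeddings of `K i` with `n (conj φ) = - n φ` which is invariant under all automorphisms `τ`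
of `ℂ` with `d (σ τ) = d σ` for all `σ` is zero. It is true (`RankCriterion`, last part of the
theorem) if the rank of `K^top(𝒟)` is less than `2 * dim S` for all nonzero spaces `S` of functions
`n` with `n (conj φ) = - n φ` that are stable under the automorphisms of `ℂ`.

**The theorem.** Let `E` be **any CM field of degree `2 g = 2 r ^ k`**, `r` a prime number, of
degree at least `16` if `r = 2`. Nothing is assumed about the Galois group of the normal closure of
`E`, and nothing about the subfields of `E`.

* (`ForProportion`) The property `Q` is true for **at least `(1 - 1 / r) 2 ^ g` of the `2 ^ g` CM
  types of `E`**; so for at least one half of them if `r = 2`, and for more if `r` is odd.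
* (`ForOneOfTwo`) There is a set `B` of embeddings of `E`, stable under complex conjugation, such
  that for **every** CM type `Φ` it is true for `Φ` or for the symmetric difference of `Φ` and `B`.
* (`ForSixteenPercent`) There is a number `g₀` such that for every CM field that is **abelian over
  `ℚ`**, of any degree `2 g ≥ 2 g₀`, it is true for at least 16 percent of all `2 ^ g` types.

All this is proved more generally for finitely many pairwise independent fields `K i`; the
proportions are then multiplied. The bound of the starting file `BoxWithCMVarieties` says nothing
for these fields if they have many CM subfields (for instance for the multiquadratic ones).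

The proof: if the types are not degenerate then all Hodge classes on `A × Z` are products (`Y1/HZ`
of the starting files), and this passes to admissible subcategories (`R299/NCH`). The proportion of
the CM types without relations is given by a theorem of the starting files (`Q29/EP`), which was
used there for slope types over finite fields.
-/

set_option autoImplicit false

namespace Pool.Agent.Results.MP_43e44c_ag.HalfOfAllTypes

open NumberField Module Pool.Agent.H204R3.CM Pool.Agent.H977R3.CM Pool.Agent.Y1.KN
  Pool.Agent.Y1.HZ Pool.Agent.Run7.h879.HC

open Pool.Agent.R299.NCH (NCHodgeTimes RankCriterion)

/-- The property of the CM types `Φ i`. -/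
def Q : CMProperty := fun _ _ _ _ _ _ Φ => NCHodgeTimes Φ

theorem notDegenerate : NotDegenerate Q := fun _ _ _ _ _ _ _ hind hΦ hnd =>
  Pool.Agent.R299.NCH.ncHodgeTimes_of_hodgeTimes (hodgeTimes_of_not_degenerate hΦ hind
    fun i => not_degenerate (hΦ i) (hnd i))

/-- **The noncommutative Hodge conjecture for `D(A) ⊠ 𝒟` is equivalent to the one for `𝒟`:
a definite proportion of all CM types of every CM field of degree `2 r ^ k`.** -/
theorem result : ForProportion Q ∧ ForOneOfTwo Q ∧ ForSixteenPercent Q ∧ RankCriterion :=
  ⟨forProportion notDegenerate, forOneOfTwo notDegenerate, forSixteenPercent notDegenerate,
    Pool.Agent.R299.NCH.rankCriterion_holds⟩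

end Pool.Agent.Results.MP_43e44c_ag.HalfOfAllTypes
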