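import Mathlib
import Pool.Agent.Run7.h8.IC.Sums
import Pool.Agent.Run7.h8.IC.Plain

/-!
# The noncommutative Hodge conjecture for varieties dominated by powers of abelian varieties with a
Frobenius element in CM fields with isolated cycles of automorphisms

Let `A` be an abelian variety over a number field (or a finitely generated subfield of the
complex numbers), of any dimension and with arbitrary endomorphisms, which has good reduction at
ONE place `v`, with a residue field of `p ^ a` elements, such that the characteristic polynomial
of the Frobenius element at `v` is the product of the minimal polynomials of Weil numbers `π i`
(`HasFrobenius`) as follows.

The Weil numbers. Let `π i` be Weil numbers for `q = p ^ a` (algebraic integers with `π i * conj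
(π i) = q`) in CM fields `K i`, finitely many. For a CM subfield `T` of `K i` let `unitNorm` be
the norm `N` of `π i` to `T`, normalised to absolute value one: `N ^ 2 / p ^ (a [K i : T])`. The
slopes of the `π i` are arbitrary. There are two assumptions.

* (`Separated`) Different embeddings of CM subfields `T i`, `T i'` of the fields (equal subfields
  if `i = i'`) never map positive powers of these numbers to the same complex number. For one
  Weil number `π` in `K` this is equivalent to `NormsGenerate`: for all CM subfields `T` of `K`,
  all positive powers of the normalised norm to `T` generate the field `T`. This condition is
  necessary: exotic classes (for instance of Weil type) come from norms some powers of which lie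
  in smaller fields.
* (`Cyclic`) For every family of CM subfields `T i` of the `K i`, `i ∈ S ≠ ∅`, some automorphism
  `τ` of `ℂ` has an *isolated cycle* on the complex embeddings of the `T i` (`IsolatedCycle`):
  for one embedding `ψ` the cycle of `ψ` under `τ` has `n > 1` elements, where `n` is any power
  of any prime number (or `n = 2 ^ a r ^ b`, `a > 0`, `r` an odd prime number, and the cycle is
  stable under complex conjugation), and `n` does not divide the length of any other cycle,
  except for that of the complex conjugate of `ψ`. By the theorem of Chebotarev this is a
  condition on the decomposition of prime numbers: some prime number, unramified in the `T i`,
  has exactly one prime ideal, or one pair of complex conjugate prime ideals, in the fields `T i`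
  whose residue degree is divisible by `n`, and this residue degree is `n`. Alternatively the
  family may have one of the properties of the starting files: some prime number divides one of
  the discriminants of the `T i`, but its third power does not divide their product; or some
  automorphism of `ℂ` moves at least one and at most four embeddings; and for norms with only two
  slopes `third power` and `four` may be replaced by `fourth power` and `six`.

An example (second part of the theorem, `ForPrimePower`), in which the condition on the CM
subfields is not a hypothesis any more: `K` is **any** CM field of degree `2 r ^ k`, `r` a prime
number, such that some automorphism of `ℂ` acts on the pairs of complex conjugate embeddings of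
`K` as one cycle (`OneOrbit`; for instance some prime number is inert in the maximal real
subfield of `K`, or is totally ramified there and does not divide the degree). `K` may have many
CM subfields. Then the conclusion is true for every Weil number `π` in `K` with `NormsGenerate`,
and arbitrary slopes. So for abelian varieties of prime power dimension with such a Frobenius
element exotic classes can only be explained by norms to CM subfields. (For `k = 1`, prime
dimension, an automorphism as in `OneOrbit` always exists, and the result is similar to theorems
of Tankeev and Zarhin.)

The conclusion (`NCHodgeHoldsFor`). Let `X` be a smooth proper variety whose rational cohomology is a
direct summand of that of powers of `A`, for instance a power of `A`, and let `C` be an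
admissible subcategory of the derived category of `X`. **Then each rational Hodge class of `C` is
the class of an element of `K_0(C) ⊗ ℚ`.** The rational topological K-group of `X` is the sum of
the spaces `H^{2 k}(X, ℚ)(k)`, so that it is a direct summand of a sum of spaces `(H^1(A, ℚ) ^ {⊗
2 d j}) (d j)`. In the formal statement (`NCHodgeHolds`) the submodule `N` of this sum contains all
classes of algebraic cycles (what is used is that products of Hodge classes of degree two are
algebraic, by the theorem of Lefschetz), and `e` is the endomorphism given by the projection
functor of `C`, which maps `K_0(X)` onto `K_0(C)`; the topological K-group of `C` consists of the
elements `v` with `e v = v`. The point is that all Hodge classes in the tensor powers of `H^1(A)`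
are combinations of products of Hodge classes of degree two. The data (`GaloisData`) are, for one
prime number `ℓ`, the rational Tate module with the comparison with `H_1(A, ℚ)`, the Galois
action, the Weil pairing, and the theorems of Faltings and of Deligne (Hodge classes are Tate
classes). That the maximality of the angle rank for one Frobenius element implies that the Hodge
classes are generated in degree two is a theorem of the starting files (TH170.FT).

The starting files (MP_021685_ag OneFrobenius, MP_0fca13_ag TateRingOfPowers) have the criterion
for families of CM subfields with the alternative properties in `Cyclic`, and with automorphisms
which act on the pairs of conjugate embeddings as one cycle of odd *prime* length and *fix all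
other embeddings*. New is that the length can be any prime power, including powers of two, or `2
^ a r ^ b`, and that the other embeddings can move, as long as the lengths of their cycles are
not divisible by `n`; so the second part of the theorem is new for all `k > 1`. The reduction to
the slopes and the descent to the CM subfields are those of the starting files
(`Pool.Agent.W527`).

The proof. A multiplicative relation between the conjugates of the `π i` gives an odd function
`c` on the embeddings of a family of CM subfields, as small as possible, such that `∑ c (z) w (g
z) = 0` for all automorphisms `g`, where `w` is the function given by the slopes of the norms. We
apply this to `g τ ^ j`, multiply by `ζ ^ (-j)`, where `ζ` is a primitive `n`-th root of unity,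
and sum over `j`. The cycles whose length is not divisible by `n` do not contribute. So for all
automorphisms `h`, `g` the product of `∑ c (h τ ^ i ψ) ζ ^ i` and of `∑ w (g τ ^ j ψ) ζ ^ (-j)`
is zero. If the first sum is zero for all `h`, then the irreducibility of the cyclotomic
polynomial gives `c (h ψ) = c (h τ ^ (n / r) ψ)` for all `h`, so that `c` comes from smaller CM
subfields, a contradiction. If not, then in the same way `w (g ψ) = w (g τ ^ (n / r) ψ)` for all
`g`, which contradicts `Separated`. So the angle rank is maximal: the only multiplicative
relations are those given by `π i * conj (π i) = q`.
-/

set_option autoImplicit false

namespace Pool.Agent.Results.MP_43e44c_ag.IsolatedCycles

open Run7.h8.IC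

/-- **The noncommutative Hodge conjecture for varieties dominated by powers of the abelian
varieties with a Frobenius element in CM fields with isolated cycles.** -/
theorem result :
    ForAllCyclic (fun p _ a _ _ K _ _ _ π =>
      NCHodgeHoldsFor p a K π) ∧
    ForPrimePower (fun p _ a _ _ K _ _ _ π =>
      NCHodgeHoldsFor p a K π) :=
  both _ ncHodgeHoldsFor

end Pool.Agent.Results.MP_43e44c_ag.IsolatedCycles
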